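import Mathlib


namespace Pool.Agent.Results.MP_cc0654_lc.SubgroupUnderCH


open Set Filter Topology

/-- permutations of the naturals fixing everything above `b` -/
def Pm (b : ℕ) : Subgroup (Equiv.Perm ℕ) where
  carrier := {π | ∀ n, b < n → π n = n}
  mul_mem' := by
    intro x y hx hy n hn
    change x (y n) = n
    rw [hy n hn, hx n hn]
  one_mem' := fun n _ => rfl
  inv_mem' := by
    intro x hx n hn
    change x⁻¹ n = n
    rw [Equiv.Perm.inv_eq_iff_eq]
    exact (hx n hn).symm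

theorem mem_Pm {b : ℕ} {π : Equiv.Perm ℕ} : π ∈ Pm b ↔ ∀ n, b < n → π n = n := Iff.rfl

theorem Pm_le {b c : ℕ} (h : b ≤ c) {π : Equiv.Perm ℕ} (hπ : π ∈ Pm b) : π ∈ Pm c :=
  fun n hn => hπ n (lt_of_le_of_lt h hn)

theorem Pm_apply_le {b : ℕ} {π : Equiv.Perm ℕ} (hπ : π ∈ Pm b) {n : ℕ} (hn : n ≤ b) :
    π n ≤ b := by
  by_contra h
  push Not at h
  have h1 := hπ _ h
  have h2 : π n = n := π.injective h1
  omega

/-- the type of such permutations -/
def PB (b : ℕ) : Type := ↥(Pm b)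

instance (b : ℕ) : Group (PB b) := inferInstanceAs (Group ↥(Pm b))
instance (b : ℕ) : TopologicalSpace (PB b) := ⊥
instance (b : ℕ) : DiscreteTopology (PB b) := ⟨rfl⟩

instance (b : ℕ) : Finite (PB b) := by
  let f : PB b → (Fin (b + 1) → Fin (b + 1)) := fun π i =>
    ⟨π.1 i.1, Nat.lt_succ_of_le (Pm_apply_le π.2 (Nat.le_of_lt_succ i.2))⟩
  apply Finite.of_injective f
  intro π ρ h
  apply Subtype.ext
  apply Equiv.ext
  intro n
  by_cases hn : n ≤ b
  · have := congrFun h ⟨n, Nat.lt_succ_of_le hn⟩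
    exact Fin.mk.inj_iff.1 this
  · rw [π.2 n (by omega), ρ.2 n (by omega)]

/-- constructor -/
def PB.cons {b : ℕ} (π : Equiv.Perm ℕ) (h : π ∈ Pm b) : PB b := ⟨π, h⟩

open Classical in
/-- coercion of a permutation -/
noncomputable def mk (b : ℕ) (π : Equiv.Perm ℕ) : PB b :=
  if h : π ∈ Pm b then PB.cons π h else 1

theorem mk_val {b : ℕ} {π : Equiv.Perm ℕ} (h : π ∈ Pm b) : (mk b π).1 = π := by
  unfold mk
  rw [dif_pos h]
  rfl

theorem mk_eq {b : ℕ} {π : Equiv.Perm ℕ} {x : PB b} (h : x.1 = π) : mk b π = x := by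
  apply Subtype.ext
  rw [mk_val (by rw [← h]; exact x.2), h]

/-- the space of sequences of permutations -/
abbrev Ps := (b : ℕ) → PB b

theorem exists_agree {x : Ps} {O : Set Ps} (hO : IsOpen O) (hx : x ∈ O) :
    ∃ N : ℕ, ∀ y : Ps, (∀ n < N, y n = x n) → y ∈ O := by
  obtain ⟨I, u, hu, hIO⟩ := isOpen_pi_iff.1 hO x hx
  refine ⟨I.sup id + 1, fun y hy => hIO ?_⟩
  intro i hi
  have : i ≤ I.sup id := Finset.le_sup (f := id) (Finset.mem_coe.1 hi)
  rw [hy i (by omega)]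
  exact (hu i (Finset.mem_coe.1 hi)).2

theorem isOpen_agree (x : Ps) (N : ℕ) : IsOpen {y : Ps | ∀ n < N, y n = x n} := by
  have : {y : Ps | ∀ n < N, y n = x n} = ⋂ n ∈ {n | n < N}, (fun y : Ps => y n) ⁻¹' {x n} := by
    ext y; simp
  rw [this]
  apply (finite_lt_nat N).isOpen_biInter
  intro n _
  exact (isOpen_discrete _).preimage (continuous_apply n)

theorem dense_agree {O : Set Ps} (h : Dense O) (x : Ps) (N : ℕ) :
    ∃ y ∈ O, ∀ n < N, y n = x n := by
  obtain ⟨y, hy, hyO⟩ := h.inter_open_nonempty _ (isOpen_agree x N) ⟨x, fun _ _ => rfl⟩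
  exact ⟨y, hyO, hy⟩

/-- decreasing sequence of open dense sets inside a residual set -/
theorem exists_dense_seq {S : Set Ps} (hS : S ∈ residual Ps) :
    ∃ G : ℕ → Set Ps, (∀ k, IsOpen (G k)) ∧ (∀ k, Dense (G k)) ∧
      ∀ w, (∀ k, w ∈ G k) → w ∈ S := by
  obtain ⟨T, hTo, hTd, hTc, hTS⟩ := mem_residual_iff.1 hS
  obtain ⟨f, hf⟩ : ∃ f : ℕ → Set Ps, insert univ T = range f :=
    (hTc.insert univ).exists_eq_range (insert_nonempty _ _)
  have hfT : ∀ k, IsOpen (f k) ∧ Dense (f k) := by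
    intro k
    have : f k ∈ insert univ T := by rw [hf]; exact mem_range_self k
    rcases this with h | h
    · rw [h]; exact ⟨isOpen_univ, dense_univ⟩
    · exact ⟨hTo _ h, hTd _ h⟩
  refine ⟨f, fun k => (hfT k).1, fun k => (hfT k).2, ?_⟩
  intro w hw
  apply hTS
  intro t ht
  have : t ∈ range f := by rw [← hf]; exact mem_insert_of_mem _ ht
  obtain ⟨k, rfl⟩ := this
  exact hw k

/-- entering one dense open set -/
theorem ext_one {D : Set Ps} (hDo : IsOpen D) (hDd : Dense D) (γ τ : Ps) (a : ℕ) :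
    ∃ (a' : ℕ) (τ' : Ps), a ≤ a' ∧ (∀ b < a, τ' b = τ b) ∧
      ∀ χ : Ps, (∀ b < a', χ b = τ' b) → χ * γ ∈ D := by
  obtain ⟨ψ, hψ, hψa⟩ := dense_agree hDd (τ * γ) a
  obtain ⟨N, hN⟩ := exists_agree hDo hψ
  refine ⟨max a N, ψ * γ⁻¹, le_max_left _ _, ?_, ?_⟩
  · intro b hb
    simp only [Pi.mul_apply, Pi.inv_apply, hψa b hb]
    simp
  · intro χ hχ
    apply hN
    intro n hn
    have h1 := hχ n (lt_of_lt_of_le hn (le_max_right _ _))
    simp only [Pi.mul_apply, Pi.inv_apply] at h1 ⊢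
    rw [h1]
    simp

/-- entering finitely many dense open sets -/
theorem ext_fin {ι : Type*} {S : Set ι} (hS : S.Finite) (D : ι → Set Ps) (γ : ι → Ps)
    (hDo : ∀ i, IsOpen (D i)) (hDd : ∀ i, Dense (D i)) (τ : Ps) (a : ℕ) :
    ∃ (a' : ℕ) (τ' : Ps), a ≤ a' ∧ (∀ b < a, τ' b = τ b) ∧
      ∀ i ∈ S, ∀ χ : Ps, (∀ b < a', χ b = τ' b) → χ * γ i ∈ D i := by
  induction S, hS using Set.Finite.induction_on with
  | empty => exact ⟨a, τ, le_rfl, fun _ _ => rfl, fun i hi => absurd hi (notMem_empty i)⟩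
  | @insert j S _ _ ih =>
    obtain ⟨a1, τ1, h1, h2, h3⟩ := ih
    obtain ⟨a2, τ2, h4, h5, h6⟩ := ext_one (hDo j) (hDd j) (γ j) τ1 a1
    refine ⟨a2, τ2, h1.trans h4, fun b hb => (h5 b (by omega)).trans (h2 b hb), ?_⟩
    rintro i (rfl | hi) χ hχ
    · exact h6 χ hχ
    · apply h3 i hi
      intro b hb
      rw [hχ b (by omega), h5 b hb]

/-- sequences that are constant from `a` on -/
def Cst (k a : ℕ) : Set Ps := {g | ∃ π : PB k, ∀ b, a ≤ b → (g b).1 = π.1}

theorem finite_Cst (k a : ℕ) : (Cst k a).Finite := by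
  classical
  let f : ((i : Fin a) → PB i.1) × PB k → Ps := fun p b =>
    if h : b < a then p.1 ⟨b, h⟩ else mk b p.2.1
  apply (finite_range f).subset
  rintro g ⟨π, hπ⟩
  refine ⟨(fun i => g i.1, π), ?_⟩
  funext b
  by_cases h : b < a
  · simp only [f, dif_pos h]
  · simp only [f, dif_neg h]
    exact mk_eq (hπ b (not_lt.1 h))

/-- the fusion lemma -/
theorem fusion (E : ℕ → ℕ → ℕ → Set Ps)
    (hE : ∀ k a m, @MeasurableSet Ps (borel Ps) (E k a m))
    (hcov : ∀ k a (ψ : Ps), ∃ m, ψ ∈ E k a m) :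
    ∃ (τ : Ps) (a m : ℕ → ℕ), a 0 = 0 ∧ StrictMono a ∧ ∀ k, ∀ ρ : Ps,
      (∀ b < a (k + 1), ρ b = 1) →
      (∀ l, ∃ π : PB l, ∀ b, a l ≤ b → b < a (l + 1) → (ρ b).1 = π.1) →
      τ * ρ ∈ E k (a k) (m k) := by
  classical
  have hU : ∀ k a m, ∃ U : Set Ps, IsOpen U ∧ (E k a m) =ᶠ[residual Ps] U := by
    intro k a m
    let _ := borel Ps
    have _ : BorelSpace Ps := ⟨rfl⟩
    exact (hE k a m).residualEq_isOpen
  choose U hUo hUE using hU
  have hC : {ψ : Ps | ∀ k a m, ψ ∈ E k a m ↔ ψ ∈ U k a m} ∈ residual Ps := by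
    have h1 : ∀ᶠ ψ in residual Ps, ∀ k a m, ψ ∈ E k a m ↔ ψ ∈ U k a m := by
      rw [eventually_countable_forall]; intro k
      rw [eventually_countable_forall]; intro a
      rw [eventually_countable_forall]; intro m
      filter_upwards [hUE k a m] with ψ hψ
      exact iff_of_eq hψ
    exact h1
  obtain ⟨G, hGo, hGd, hGC⟩ := exists_dense_seq hC
  have hUd : ∀ k a, Dense (⋃ m, U k a m) := by
    intro k a
    apply (dense_of_mem_residual hC).mono
    intro ψ hψ
    obtain ⟨m, hm⟩ := hcov k a ψ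
    exact mem_iUnion.2 ⟨m, (hψ k a m).1 hm⟩
  have step : ∀ k a (τ : Ps), ∃ (a' : ℕ) (τ' : Ps) (m : ℕ), a < a' ∧ (∀ b < a, τ' b = τ b) ∧
      (∀ χ : Ps, (∀ b < a', χ b = τ' b) → χ ∈ U k a m) ∧
      ∀ r ≤ k, ∀ g ∈ Cst k a, ∀ χ : Ps, (∀ b < a', χ b = τ' b) → χ * g ∈ G r := by
    intro k a τ
    obtain ⟨ψ, hψ, hψa⟩ := dense_agree (hUd k a) τ a
    obtain ⟨m, hm⟩ := mem_iUnion.1 hψ
    obtain ⟨N, hN⟩ := exists_agree (hUo k a m) hm
    obtain ⟨a', τ', h1, h2, h3⟩ := ext_fin ((finite_le_nat k).prod (finite_Cst k a))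
      (fun p : ℕ × Ps => G p.1) (fun p => p.2) (fun p => hGo _) (fun p => hGd _) ψ
      (max (a + 1) N)
    refine ⟨a', τ', m, by omega, ?_, ?_, ?_⟩
    · intro b hb
      rw [h2 b (by omega), hψa b hb]
    · intro χ hχ
      apply hN
      intro n hn
      rw [hχ n (by omega), h2 n (by omega)]
    · intro r hr g hg χ hχ
      exact h3 (r, g) ⟨hr, hg⟩ χ hχ
  choose A T M hA hT hTU hTG using step
  let s : ℕ → ℕ × Ps := fun k => Nat.rec (motive := fun _ => ℕ × Ps) (0, 1)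
    (fun k p => (A k p.1 p.2, T k p.1 p.2)) k
  have hs : ∀ k, s (k + 1) = (A k (s k).1 (s k).2, T k (s k).1 (s k).2) := fun _ => rfl
  let a : ℕ → ℕ := fun k => (s k).1
  have ha : ∀ k, a (k + 1) = A k (a k) (s k).2 := fun _ => rfl
  have hsm : StrictMono a := strictMono_nat_of_lt_succ (fun k => by rw [ha]; exact hA _ _ _)
  have hle : ∀ k, k ≤ a k := fun k => hsm.le_apply
  have hcoh1 : ∀ k, ∀ b < a k, (s (k + 1)).2 b = (s k).2 b := by
    intro k b hb
    exact hT k (a k) (s k).2 b hb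
  have hcoh : ∀ j k, k ≤ j → ∀ b < a k, (s j).2 b = (s k).2 b := by
    intro j k hkj
    induction j, hkj using Nat.le_induction with
    | base => intro b _; rfl
    | succ j hkj ih =>
      intro b hb
      rw [hcoh1 j b (lt_of_lt_of_le hb (hsm.monotone hkj)), ih b hb]
  let τ : Ps := fun b => (s (b + 1)).2 b
  have hτ : ∀ k, ∀ b < a k, τ b = (s k).2 b := by
    intro k b hb
    rcases le_total (b + 1) k with h | h
    · exact (hcoh k (b + 1) h b (lt_of_lt_of_le (Nat.lt_succ_self b) (hle (b + 1)))).symm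
    · exact hcoh (b + 1) k h b hb
  refine ⟨τ, a, fun k => M k (a k) (s k).2, rfl, hsm, ?_⟩
  intro k ρ hρ1 hρ2
  have h1 : τ * ρ ∈ U k (a k) (M k (a k) (s k).2) := by
    apply hTU k (a k) (s k).2
    intro b hb
    have hb' : b < a (k + 1) := hb
    simp only [Pi.mul_apply]
    rw [hρ1 b hb', mul_one, hτ (k + 1) b hb']
  have h2 : ∀ r, τ * ρ ∈ G r := by
    intro r
    obtain ⟨π, hπ⟩ := hρ2 r
    let g : Ps := fun b => if b < a r then ρ b else mk b π.1
    have hgC : g ∈ Cst r (a r) := by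
      refine ⟨π, fun b hb => ?_⟩
      have h3 : π.1 ∈ Pm b := Pm_le ((hle r).trans hb) π.2
      simp only [g, if_neg (not_lt.2 hb)]
      exact mk_val h3
    have hgρ : ∀ b < a (r + 1), g b = ρ b := by
      intro b hb
      by_cases h : b < a r
      · simp only [g, if_pos h]
      · simp only [g, if_neg h]
        exact mk_eq (hπ b (not_lt.1 h) hb)
    have h4 := hTG r (a r) (s r).2 r le_rfl g hgC (τ * ρ * g⁻¹) (by
      intro b hb
      have hb' : b < a (r + 1) := hb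
      simp only [Pi.mul_apply, Pi.inv_apply]
      rw [hgρ b hb', mul_inv_cancel_right, hτ (r + 1) b hb'])
    rwa [inv_mul_cancel_right] at h4
  exact (hGC _ h2 k (a k) _).2 h1

/-- extension of a finite partial injection to a permutation -/
theorem exists_perm (L l : ℕ) (r t : ℕ → ℕ) (hr : InjOn r (Iio l)) (ht : InjOn t (Iio l))
    (hrL : ∀ j < l, r j ≤ L) (htL : ∀ j < l, t j ≤ L) :
    ∃ π ∈ Pm L, ∀ j < l, π (r j) = t j := by
  induction l with
  | zero => exact ⟨1, (Pm L).one_mem, fun j hj => absurd hj (Nat.not_lt_zero j)⟩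
  | succ l ih =>
    obtain ⟨π, hπ, hπj⟩ := ih (hr.mono (Iio_subset_Iio (Nat.le_succ l)))
      (ht.mono (Iio_subset_Iio (Nat.le_succ l))) (fun j hj => hrL j (by omega))
      (fun j hj => htL j (by omega))
    have h1 : π (r l) ≤ L := Pm_apply_le hπ (hrL l (Nat.lt_succ_self l))
    have h2 : t l ≤ L := htL l (Nat.lt_succ_self l)
    refine ⟨Equiv.swap (π (r l)) (t l) * π, (Pm L).mul_mem ?_ hπ, ?_⟩
    · intro n hn
      exact Equiv.swap_apply_of_ne_of_ne (by omega) (by omega)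
    · intro j hj
      rcases Nat.lt_succ_iff_lt_or_eq.1 hj with h | rfl
      · change Equiv.swap (π (r l)) (t l) (π (r j)) = t j
        rw [hπj j h]
        apply Equiv.swap_apply_of_ne_of_ne
        · rw [← hπj j h]
          intro hcon
          have := hr (mem_Iio.2 hj) (mem_Iio.2 (Nat.lt_succ_self l)) (π.injective hcon)
          omega
        · intro hcon
          have := ht (mem_Iio.2 hj) (mem_Iio.2 (Nat.lt_succ_self l)) hcon
          omega
      · change Equiv.swap (π (r j)) (t j) (π (r j)) = t j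
        exact Equiv.swap_apply_left _ _

/-- the block number of `i` for a sequence of block starts `a` -/
def lev (a : ℕ → ℕ) (i : ℕ) : ℕ := Nat.findGreatest (fun n => a n ≤ i) i

theorem le_lev {a : ℕ → ℕ} (ha : StrictMono a) {n i : ℕ} (h : a n ≤ i) : n ≤ lev a i :=
  Nat.le_findGreatest (P := fun n => a n ≤ i) (ha.le_apply.trans h) h

theorem lev_spec {a : ℕ → ℕ} {i : ℕ} (h : a 0 ≤ i) : a (lev a i) ≤ i :=
  Nat.findGreatest_spec (P := fun n => a n ≤ i) (Nat.zero_le i) h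

theorem lt_lev_succ {a : ℕ → ℕ} (ha : StrictMono a) (i : ℕ) : i < a (lev a i + 1) := by
  by_contra h
  have := le_lev ha (not_lt.1 h)
  omega

theorem lev_mono {a : ℕ → ℕ} (ha : StrictMono a) : Monotone (lev a) := by
  intro i j hij
  by_cases h : a 0 ≤ i
  · exact le_lev ha ((lev_spec h).trans hij)
  · have : lev a i = 0 := by
      apply Nat.findGreatest_eq_zero_iff.2
      intro k hk _ hk2
      exact h ((ha.monotone (Nat.zero_le k)).trans hk2)
    rw [this]
    exact Nat.zero_le _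

theorem lev_zero {a : ℕ → ℕ} (ha : StrictMono a) {i : ℕ} (h : ¬ a 0 ≤ i) : lev a i = 0 := by
  apply Nat.findGreatest_eq_zero_iff.2
  intro k hk _ hk2
  exact h ((ha.monotone (Nat.zero_le k)).trans hk2)

theorem lev_le (a : ℕ → ℕ) (i : ℕ) : lev a i ≤ i := Nat.findGreatest_le i

theorem lev_tendsto {a : ℕ → ℕ} (ha : StrictMono a) : Tendsto (lev a) atTop atTop :=
  tendsto_atTop_atTop.2 (fun n => ⟨a n, fun _ hi => le_lev ha hi⟩)

/-- the conditions -/
structure Cond where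
  κ : ℕ → ℕ
  σ : ℕ → ℕ → ℤ
  mono : Monotone κ
  tend : Tendsto κ atTop atTop
  inj : ∀ i, InjOn (σ i) (Iic (κ i))

/-- the order of conditions -/
def Le (q' q : Cond) : Prop :=
  ∃ (N : ℕ) (ν : ℕ → ℕ) (τ : ℕ → ℕ → ℕ), ∀ i, N ≤ i → q'.κ i = ν (q.κ i) ∧
    ∀ j ≤ q'.κ i, τ (q.κ i) j ≤ q.κ i ∧ q'.σ i j = q.σ i (τ (q.κ i) j)

theorem Le.refl (q : Cond) : Le q q :=
  ⟨0, fun b => b, fun _ j => j, fun _ _ => ⟨rfl, fun _ hj => ⟨hj, rfl⟩⟩⟩

theorem Le.trans {q1 q2 q3 : Cond} (h1 : Le q1 q2) (h2 : Le q2 q3) : Le q1 q3 := by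
  obtain ⟨N, ν, τ, h⟩ := h1
  obtain ⟨N', ν', τ', h'⟩ := h2
  refine ⟨max N N', fun b => ν (ν' b), fun b j => τ' b (τ (ν' b) j), ?_⟩
  intro i hi
  obtain ⟨a1, a2⟩ := h i ((le_max_left _ _).trans hi)
  obtain ⟨b1, b2⟩ := h' i ((le_max_right _ _).trans hi)
  refine ⟨by rw [a1, b1], ?_⟩
  intro j hj
  obtain ⟨c1, c2⟩ := a2 j hj
  obtain ⟨d1, d2⟩ := b2 _ c1
  rw [b1] at d1 d2 c1 c2
  exact ⟨d1, by rw [c2, d2]⟩

/-- a decreasing sequence of conditions has a lower bound -/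
theorem exists_lower_seq (q : ℕ → Cond) (hq : ∀ m n, m ≤ n → Le (q n) (q m)) :
    ∃ p : Cond, ∀ n, Le p (q n) := by
  classical
  have hex : ∀ m n, ∃ (N : ℕ) (ν : ℕ → ℕ) (τ : ℕ → ℕ → ℕ), m ≤ n → ∀ i, N ≤ i →
      (q n).κ i = ν ((q m).κ i) ∧
      ∀ j ≤ (q n).κ i, τ ((q m).κ i) j ≤ (q m).κ i ∧
        (q n).σ i j = (q m).σ i (τ ((q m).κ i) j) := by
    intro m n
    by_cases h : m ≤ n
    · obtain ⟨N, ν, τ, h1⟩ := hq m n h
      exact ⟨N, ν, τ, fun _ => h1⟩
    · exact ⟨0, fun b => b, fun _ j => j, fun h' => absurd h' h⟩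
  choose N ν τ hN using hex
  obtain ⟨a, ha, haP⟩ : ∃ a : ℕ → ℕ, StrictMono a ∧ ∀ n, (1 ≤ a n ∧
      (q n).κ (a n - 1) < (q n).κ (a n) ∧ n ≤ (q n).κ (a n) ∧ ∀ m ≤ n, N m n < a n) := by
    apply extraction_forall_of_frequently
      (P := fun n i => 1 ≤ i ∧ (q n).κ (i - 1) < (q n).κ i ∧ n ≤ (q n).κ i ∧ ∀ m ≤ n, N m n < i)
    intro n
    have hfr : ∃ᶠ i in atTop, (1 ≤ i ∧ (q n).κ (i - 1) < (q n).κ i) := by
      rw [frequently_atTop]
      intro i0
      by_contra hcon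
      push Not at hcon
      have hconst : ∀ i, i0 ≤ i → (q n).κ i = (q n).κ i0 := by
        intro i hi
        induction i, hi using Nat.le_induction with
        | base => rfl
        | succ i hi ih =>
          have h1 := hcon (i + 1) (by omega) (by omega)
          have h2 := (q n).mono (Nat.le_succ i)
          simp only [Nat.add_sub_cancel] at h1
          have h3 : (q n).κ (i + 1) = (q n).κ i := le_antisymm h1 h2
          rw [h3, ih]
      obtain ⟨i1, hi1⟩ := ((q n).tend.eventually (eventually_gt_atTop ((q n).κ i0))).exists_forall_of_atTop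
      have h4 := hi1 (max i0 i1) (le_max_right _ _)
      rw [hconst _ (le_max_left _ _)] at h4
      exact lt_irrefl _ h4
    have hev : ∀ᶠ i in atTop, (n ≤ (q n).κ i ∧ ∀ m ≤ n, N m n < i) := by
      refine ((q n).tend.eventually (eventually_ge_atTop n)).and ?_
      have : ∀ m ∈ Iic n, ∀ᶠ i in atTop, N m n < i := fun m _ => eventually_gt_atTop _
      exact (eventually_all_finite (finite_Iic n)).2 this
    exact (hfr.and_eventually hev).mono (fun i hi => ⟨hi.1.1, hi.1.2, hi.2.1, hi.2.2⟩)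
  have key : ∀ m i i', a m ≤ i → a m ≤ i' → (q m).κ i = (q m).κ i' → lev a i' ≤ lev a i := by
    intro m i i' hi hi' hκ
    by_contra hcon
    push Not at hcon
    have h0 : a 0 ≤ i' := (ha.monotone (Nat.zero_le m)).trans hi'
    have h1 : a (lev a i') ≤ i' := lev_spec h0
    have h2 : ¬ a (lev a i') ≤ i := fun h => absurd (le_lev ha h) (by omega)
    have hmn : m ≤ lev a i' := (le_lev ha hi').trans (le_refl _)
    set n := lev a i' with hn
    obtain ⟨p1, p2, p3, p4⟩ := haP n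
    have h3 := p4 m hmn
    obtain ⟨e1, -⟩ := hN m n hmn (a n - 1) (by omega)
    obtain ⟨e2, -⟩ := hN m n hmn (a n) (by omega)
    have h4 : (q m).κ (a n - 1) ≠ (q m).κ (a n) := by
      intro h
      rw [e1, e2, h] at p2
      exact lt_irrefl _ p2
    have h5 : (q m).κ (a n - 1) ≤ (q m).κ (a n) := (q m).mono (by omega)
    have h6 : (q m).κ i ≤ (q m).κ (a n - 1) := (q m).mono (by omega)
    have h7 : (q m).κ (a n) ≤ (q m).κ i' := (q m).mono h1
    omega
  have hκle : ∀ i, a 0 ≤ i → lev a i ≤ (q (lev a i)).κ i := by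
    intro i hi
    exact (haP (lev a i)).2.2.1.trans ((q (lev a i)).mono (lev_spec hi))
  let p : Cond :=
    { κ := lev a
      σ := fun i => (q (lev a i)).σ i
      mono := lev_mono ha
      tend := lev_tendsto ha
      inj := by
        intro i
        by_cases h : a 0 ≤ i
        · exact ((q (lev a i)).inj i).mono (Iic_subset_Iic.2 (hκle i h))
        · rw [lev_zero ha h]
          intro x hx y hy _
          simp only [mem_Iic, Nat.le_zero] at hx hy
          rw [hx, hy] }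
  refine ⟨p, ?_⟩
  intro m
  let ν' : ℕ → ℕ := fun b => if h : ∃ i, a m ≤ i ∧ (q m).κ i = b then lev a h.choose else 0
  have hν' : ∀ i, a m ≤ i → ν' ((q m).κ i) = lev a i := by
    intro i hi
    have h : ∃ i', a m ≤ i' ∧ (q m).κ i' = (q m).κ i := ⟨i, hi, rfl⟩
    simp only [ν', dif_pos h]
    exact le_antisymm (key m _ _ hi h.choose_spec.1 h.choose_spec.2.symm)
      (key m _ _ h.choose_spec.1 hi h.choose_spec.2)
  refine ⟨a m, ν', fun b j => τ m (ν' b) b j, ?_⟩
  intro i hi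
  have h0 : a 0 ≤ i := (ha.monotone (Nat.zero_le m)).trans hi
  refine ⟨(hν' i hi).symm, ?_⟩
  intro j hj
  have hj' : j ≤ lev a i := hj
  have hmn : m ≤ lev a i := le_lev ha hi
  have h1 := (haP (lev a i)).2.2.2 m hmn
  have h2 := lev_spec h0
  obtain ⟨-, e2⟩ := hN m (lev a i) hmn i (by omega)
  obtain ⟨e3, e4⟩ := e2 j (hj'.trans (hκle i h0))
  beta_reduce
  rw [hν' i hi]
  exact ⟨e3, e4⟩

/-- the elements that may still be added -/
def Sp (Z : AddSubgroup (ℕ → ℤ)) (q : Cond) : Set (ℕ → ℤ) :=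
  {g | ∃ z ∈ Z, ∃ (l : ℕ) (φ : ℕ → ℕ → ℕ) (c : ℕ → ℤ), ∀ᶠ i in atTop,
    InjOn (fun j => φ j (q.κ i)) (Iio l) ∧ (∀ j < l, φ j (q.κ i) ≤ q.κ i) ∧
    g i = z i + ∑ j ∈ Finset.range l, c j * q.σ i (φ j (q.κ i))}

theorem subset_Sp (Z : AddSubgroup (ℕ → ℤ)) (q : Cond) : (Z : Set (ℕ → ℤ)) ⊆ Sp Z q := by
  intro z hz
  refine ⟨z, hz, 0, fun _ _ => 0, fun _ => 0, Eventually.of_forall (fun i => ⟨?_, ?_, ?_⟩)⟩
  · intro x hx
    exact absurd (mem_Iio.1 hx) (Nat.not_lt_zero x)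
  · intro j hj
    exact absurd hj (Nat.not_lt_zero j)
  · simp

theorem Sp_mono {Z Z' : AddSubgroup (ℕ → ℤ)} (h : Z ≤ Z') (q : Cond) : Sp Z q ⊆ Sp Z' q := by
  rintro g ⟨z, hz, h1⟩
  exact ⟨z, h hz, h1⟩

theorem Sp_le (Z : AddSubgroup (ℕ → ℤ)) {q' q : Cond} (h : Le q' q) : Sp Z q' ⊆ Sp Z q := by
  obtain ⟨N, ν, τ, h⟩ := h
  rintro g ⟨z, hz, l, φ, c, hg⟩
  refine ⟨z, hz, l, fun j b => τ b (φ j (ν b)), c, ?_⟩
  filter_upwards [hg, eventually_ge_atTop N] with i hi hiN
  obtain ⟨h1, h2, h3⟩ := hi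
  obtain ⟨h4, h5⟩ := h i hiN
  have h6 : ∀ j < l, τ (q.κ i) (φ j (ν (q.κ i))) ≤ q.κ i ∧
      q'.σ i (φ j (q'.κ i)) = q.σ i (τ (q.κ i) (φ j (ν (q.κ i)))) := by
    intro j hj
    have := h5 (φ j (q'.κ i)) (h2 j hj)
    rw [← h4]
    exact this
  refine ⟨?_, fun j hj => (h6 j hj).1, ?_⟩
  · intro x hx y hy hxy
    have hx' := h6 x (mem_Iio.1 hx)
    have hy' := h6 y (mem_Iio.1 hy)
    apply h1 hx hy
    apply q'.inj i (mem_Iic.2 (h2 x (mem_Iio.1 hx))) (mem_Iic.2 (h2 y (mem_Iio.1 hy)))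
    rw [hx'.2, hy'.2]
    exact congrArg _ hxy
  · rw [h3]
    congr 1
    apply Finset.sum_congr rfl
    intro j hj
    rw [(h6 j (Finset.mem_range.1 hj)).2]

/-- adding finitely many elements to a subgroup -/
def addFam (Z : AddSubgroup (ℕ → ℤ)) (x : ℕ → ℕ → ℤ) (l : ℕ) : AddSubgroup (ℕ → ℤ) where
  carrier := {g | ∃ z ∈ Z, ∃ c : ℕ → ℤ, ∀ i, g i = z i + ∑ j ∈ Finset.range l, c j * x j i}
  add_mem' := by
    rintro g g' ⟨z, hz, c, h⟩ ⟨z', hz', c', h'⟩
    refine ⟨z + z', Z.add_mem hz hz', fun j => c j + c' j, fun i => ?_⟩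
    simp only [Pi.add_apply, h, h', add_mul, Finset.sum_add_distrib]
    ring
  zero_mem' := ⟨0, Z.zero_mem, fun _ => 0, fun i => by simp⟩
  neg_mem' := by
    rintro g ⟨z, hz, c, h⟩
    refine ⟨-z, Z.neg_mem hz, fun j => - c j, fun i => ?_⟩
    simp only [Pi.neg_apply, h, neg_mul, Finset.sum_neg_distrib]
    ring

theorem mem_addFam {Z : AddSubgroup (ℕ → ℤ)} {x : ℕ → ℕ → ℤ} {l : ℕ} {g : ℕ → ℤ} :
    g ∈ addFam Z x l ↔
      ∃ z ∈ Z, ∃ c : ℕ → ℤ, ∀ i, g i = z i + ∑ j ∈ Finset.range l, c j * x j i := Iff.rfl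

theorem le_addFam (Z : AddSubgroup (ℕ → ℤ)) (x : ℕ → ℕ → ℤ) (l : ℕ) : Z ≤ addFam Z x l :=
  fun z hz => ⟨z, hz, fun _ => 0, fun i => by simp⟩

theorem mem_addFam_self (Z : AddSubgroup (ℕ → ℤ)) (x : ℕ → ℕ → ℤ) {l j : ℕ} (hj : j < l) :
    x j ∈ addFam Z x l := by
  refine ⟨0, Z.zero_mem, fun k => if k = j then 1 else 0, fun i => ?_⟩
  simp [hj]

theorem countable_addFam {Z : AddSubgroup (ℕ → ℤ)} (hZ : (Z : Set (ℕ → ℤ)).Countable)
    (x : ℕ → ℕ → ℤ) (l : ℕ) : (addFam Z x l : Set (ℕ → ℤ)).Countable := by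
  classical
  have : Countable Z := hZ.to_subtype
  apply (countable_range (fun p : Z × (Fin l → ℤ) => fun i : ℕ =>
    (p.1 : ℕ → ℤ) i + ∑ j ∈ Finset.range l, (if h : j < l then p.2 ⟨j, h⟩ else 0) * x j i)).mono
  rintro g ⟨z, hz, c, h⟩
  refine ⟨(⟨z, hz⟩, fun j => c j), ?_⟩
  funext i
  rw [h i]
  beta_reduce
  congr 1
  apply Finset.sum_congr rfl
  intro j hj
  rw [dif_pos (Finset.mem_range.1 hj)]

/-- the values of the `j`-th branch picked by a sequence of permutations -/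
def Xb (q : Cond) (ψ : Ps) (j i : ℕ) : ℤ := q.σ i ((ψ (q.κ i)).1 j)

/-- the condition after the branches below `l` are used -/
def shift (q : Cond) (ψ : Ps) (l : ℕ) : Cond where
  κ := fun i => q.κ i - l
  σ := fun i j => q.σ i ((ψ (q.κ i)).1 (j + l))
  mono := fun i i' h => Nat.sub_le_sub_right (q.mono h) l
  tend := by
    apply tendsto_atTop_atTop.2
    intro b
    obtain ⟨i, hi⟩ := tendsto_atTop_atTop.1 q.tend (b + l)
    refine ⟨i, fun a ha => ?_⟩
    have := hi a ha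
    omega
  inj := by
    intro i
    by_cases h : l ≤ q.κ i
    · intro x hx y hy hxy
      have hx' : x ≤ q.κ i - l := hx
      have hy' : y ≤ q.κ i - l := hy
      have h1 := q.inj i (mem_Iic.2 (Pm_apply_le (ψ (q.κ i)).2 (n := x + l) (by omega)))
        (mem_Iic.2 (Pm_apply_le (ψ (q.κ i)).2 (n := y + l) (by omega))) hxy
      have h2 := (ψ (q.κ i)).1.injective h1
      omega
    · intro x hx y hy _
      have hx' : x ≤ q.κ i - l := hx
      have hy' : y ≤ q.κ i - l := hy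
      omega

theorem shift_le (q : Cond) (ψ : Ps) (l : ℕ) : Le (shift q ψ l) q := by
  obtain ⟨N, hN⟩ := tendsto_atTop_atTop.1 q.tend l
  refine ⟨N, fun b => b - l, fun b j => (ψ b).1 (j + l), fun i hi => ⟨rfl, fun j hj => ?_⟩⟩
  have h1 := hN i hi
  have hj' : j ≤ q.κ i - l := hj
  exact ⟨Pm_apply_le (ψ (q.κ i)).2 (by omega), rfl⟩

theorem Sp_shift (Z : AddSubgroup (ℕ → ℤ)) (q : Cond) (ψ : Ps) (l : ℕ) :
    Sp (addFam Z (Xb q ψ) l) (shift q ψ l) ⊆ Sp Z q := by
  classical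
  rintro g ⟨z', ⟨z, hz, d, hz'⟩, l', φ, c, hg⟩
  refine ⟨z, hz, l + l', fun j b => (ψ b).1 (if j < l then j else φ (j - l) (b - l) + l),
    fun j => if j < l then d j else c (j - l), ?_⟩
  filter_upwards [hg, q.tend.eventually (eventually_ge_atTop l)] with i hi hil
  obtain ⟨h1, h2, h3⟩ := hi
  have h2' : ∀ j < l', φ j (q.κ i - l) ≤ q.κ i - l := h2
  refine ⟨?_, ?_, ?_⟩
  · intro x hx y hy hxy
    have h4 := (ψ (q.κ i)).1.injective hxy
    simp only [mem_Iio] at hx hy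
    by_cases hxl : x < l
    · by_cases hyl : y < l
      · rwa [if_pos hxl, if_pos hyl] at h4
      · rw [if_pos hxl, if_neg hyl] at h4
        omega
    · by_cases hyl : y < l
      · rw [if_neg hxl, if_pos hyl] at h4
        omega
      · rw [if_neg hxl, if_neg hyl] at h4
        have h5 : φ (x - l) (q.κ i - l) = φ (y - l) (q.κ i - l) := by omega
        have h6 := h1 (mem_Iio.2 (by omega : x - l < l')) (mem_Iio.2 (by omega : y - l < l')) h5
        omega
  · intro j hj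
    apply Pm_apply_le (ψ (q.κ i)).2
    by_cases hjl : j < l
    · rw [if_pos hjl]
      omega
    · rw [if_neg hjl]
      have := h2' (j - l) (by omega)
      omega
  · rw [h3, hz' i, Finset.sum_range_add, add_assoc]
    congr 1
    congr 1
    · apply Finset.sum_congr rfl
      intro j hj
      have hj' := Finset.mem_range.1 hj
      simp only [if_pos hj', Xb]
    · apply Finset.sum_congr rfl
      intro j hj
      have hj' : ¬ l + j < l := by omega
      simp only [if_neg hj', Nat.add_sub_cancel_left]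
      rfl

theorem finite_bdd (N : ℕ) (b : ℕ → ℤ) :
    {f : ℕ → ℤ | (∀ i, |f i| ≤ b i) ∧ ∀ i, N ≤ i → f i = 0}.Finite := by
  classical
  let F : ((i : Fin N) → ↥(Icc (-(b i)) (b i))) → (ℕ → ℤ) := fun p i =>
    if h : i < N then (p ⟨i, h⟩).1 else 0
  apply (finite_range F).subset
  rintro f ⟨h1, h2⟩
  refine ⟨fun i => ⟨f i, abs_le.1 (h1 i)⟩, ?_⟩
  funext i
  by_cases h : i < N
  · simp only [F, dif_pos h]
  · simp only [F, dif_neg h]
    exact (h2 i (not_lt.1 h)).symm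

/-- the assembled element -/
def asm (z : ℕ → ℕ → ℤ) (q : Cond) (k a : ℕ) (t : ℕ × (ℕ → ℤ) × (ℕ → ℤ)) (ψ : Ps) : ℕ → ℤ :=
  fun i => if q.κ i < a then t.2.2 i else
    z t.1 i + ∑ j ∈ Finset.range (k + 1), t.2.1 j * Xb q ψ j i

/-- the bound for the assembled elements -/
def bd (z : ℕ → ℕ → ℤ) (q : Cond) (k i : ℕ) : ℤ :=
  k + ∑ n ∈ Finset.range (k + 1), |z n i| + k * k * ∑ j ∈ Finset.range (q.κ i + 1), |q.σ i j|

/-- the assembly instructions -/
def Asm (z : ℕ → ℕ → ℤ) (q : Cond) (k N : ℕ) : Set (ℕ × (ℕ → ℤ) × (ℕ → ℤ)) :=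
  Iic k ×ˢ {f : ℕ → ℤ | (∀ i, |f i| ≤ (k : ℤ) * k) ∧ ∀ i, k + 1 ≤ i → f i = 0} ×ˢ
    {f : ℕ → ℤ | (∀ i, |f i| ≤ bd z q k i) ∧ ∀ i, N ≤ i → f i = 0}

theorem finite_Asm (z : ℕ → ℕ → ℤ) (q : Cond) (k N : ℕ) : (Asm z q k N).Finite :=
  (finite_Iic k).prod ((finite_bdd _ _).prod (finite_bdd _ _))

theorem continuous_Xb (q : Cond) (j i : ℕ) : Continuous (fun ψ : Ps => Xb q ψ j i) :=
  (continuous_of_discreteTopology (f := fun π : PB (q.κ i) => q.σ i (π.1 j))).comp
    (continuous_apply (q.κ i))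

theorem continuous_asm (z : ℕ → ℕ → ℤ) (q : Cond) (k a : ℕ) (t : ℕ × (ℕ → ℤ) × (ℕ → ℤ)) :
    Continuous (asm z q k a t) := by
  apply continuous_pi
  intro i
  by_cases h : q.κ i < a
  · simp only [asm, if_pos h]
    exact continuous_const
  · simp only [asm, if_neg h]
    apply continuous_const.add
    apply continuous_finsetSum
    intro j _
    exact continuous_const.mul (continuous_Xb q j i)

theorem sum_reindex (l k : ℕ) (r : ℕ → ℕ) (hr : ∀ j < l, r j ≤ k) (c h : ℕ → ℤ) :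
    ∑ j' ∈ Finset.range (k + 1), (∑ j ∈ Finset.range l, if r j = j' then c j else 0) * h j' =
      ∑ j ∈ Finset.range l, c j * h (r j) := by
  simp only [Finset.sum_mul]
  rw [Finset.sum_comm]
  apply Finset.sum_congr rfl
  intro j hj
  have h1 := hr j (Finset.mem_range.1 hj)
  rw [Finset.sum_eq_single (r j)]
  · rw [if_pos rfl]
  · intro b _ hb
    rw [if_neg (Ne.symm hb), zero_mul]
  · intro h2
    exact absurd (Finset.mem_range.2 (by omega)) h2

theorem lev_eq {a : ℕ → ℕ} (ha : StrictMono a) (h0 : a 0 = 0) {b l : ℕ} (h1 : a l ≤ b)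
    (h2 : b < a (l + 1)) : lev a b = l := by
  apply le_antisymm _ (le_lev ha h1)
  by_contra h
  have h3 := ha.monotone (by omega : l + 1 ≤ lev a b)
  have h4 : a (lev a b) ≤ b := lev_spec (by omega)
  omega

/-- the main dichotomy -/
theorem dichotomy (Z : AddSubgroup (ℕ → ℤ)) (hZ : (Z : Set (ℕ → ℤ)).Countable)
    (hfin : ∀ g : ℕ → ℤ, (∃ N, ∀ i, N ≤ i → g i = 0) → g ∈ Z) (q : Cond)
    (B : ℕ → ℕ → Set (ℕ → ℤ)) (hB : ∀ n m, MeasurableSet (B n m)) :
    (∃ (ψ : Ps) (l n : ℕ) (F : Set (ℕ → ℤ)), F.Finite ∧ F ⊆ addFam Z (Xb q ψ) l ∧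
      ∀ m, ¬ F ⊆ B n m) ∨
    (∃ q', Le q' q ∧ ∃ f : ℕ → ℕ, ∀ g ∈ Sp Z q', ∀ᶠ k in atTop, g ∈ B k (f k)) := by
  classical
  by_cases hA : ∃ (ψ : Ps) (l n : ℕ) (F : Set (ℕ → ℤ)), F.Finite ∧ F ⊆ addFam Z (Xb q ψ) l ∧
      ∀ m, ¬ F ⊆ B n m
  · exact Or.inl hA
  right
  push Not at hA
  obtain ⟨z, hz⟩ : ∃ z : ℕ → ℕ → ℤ, (Z : Set (ℕ → ℤ)) = range z :=
    hZ.exists_eq_range ⟨0, Z.zero_mem⟩
  have hzZ : ∀ n, z n ∈ Z := fun n => by
    have : z n ∈ (Z : Set (ℕ → ℤ)) := by rw [hz]; exact mem_range_self n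
    exact this
  have hNa : ∀ a, ∃ N, ∀ i, N ≤ i → a ≤ q.κ i := fun a => tendsto_atTop_atTop.1 q.tend a
  choose Na hNa using hNa
  let E : ℕ → ℕ → ℕ → Set Ps := fun k a m =>
    {ψ | ∀ t ∈ Asm z q k (Na a), asm z q k a t ψ ∈ B k m}
  have hE : ∀ k a m, @MeasurableSet Ps (borel Ps) (E k a m) := by
    intro k a m
    let _ := borel Ps
    have _ : BorelSpace Ps := ⟨rfl⟩
    have h1 : E k a m = ⋂ t ∈ Asm z q k (Na a), (asm z q k a t) ⁻¹' (B k m) := by
      ext ψ
      simp only [E, mem_iInter, mem_preimage, mem_ofPred_eq]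
    rw [h1]
    apply MeasurableSet.biInter (finite_Asm z q k (Na a)).countable
    intro t _
    exact (continuous_asm z q k a t).measurable (hB k m)
  have hcov : ∀ k a (ψ : Ps), ∃ m, ψ ∈ E k a m := by
    intro k a ψ
    obtain ⟨m, hm⟩ := hA ψ (k + 1) k ((fun t => asm z q k a t ψ) '' Asm z q k (Na a))
      ((finite_Asm z q k (Na a)).image _) (by
        rintro _ ⟨t, _, rfl⟩
        refine ⟨fun i => asm z q k a t ψ i - ∑ j ∈ Finset.range (k + 1), t.2.1 j * Xb q ψ j i,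
          ?_, t.2.1, fun i => by simp⟩
        have h1 : (fun i => asm z q k a t ψ i -
            ∑ j ∈ Finset.range (k + 1), t.2.1 j * Xb q ψ j i) = z t.1 + (fun i =>
            asm z q k a t ψ i - ∑ j ∈ Finset.range (k + 1), t.2.1 j * Xb q ψ j i - z t.1 i) := by
          funext i
          simp only [Pi.add_apply]
          ring
        rw [h1]
        apply Z.add_mem (hzZ _)
        apply hfin
        refine ⟨Na a, fun i hi => ?_⟩
        have h2 : ¬ q.κ i < a := not_lt.2 (hNa a i hi)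
        simp only [asm, if_neg h2]
        ring)
    exact ⟨m, fun t ht => hm ⟨t, ht, rfl⟩⟩
  obtain ⟨τ, a, m, ha0, ha, hmain⟩ := fusion E hE hcov
  let q' : Cond :=
    { κ := fun i => lev a (q.κ i)
      σ := fun i j => q.σ i ((τ (q.κ i)).1 j)
      mono := (lev_mono ha).comp q.mono
      tend := (lev_tendsto ha).comp q.tend
      inj := by
        intro i x hx y hy hxy
        have hx' : x ≤ lev a (q.κ i) := hx
        have hy' : y ≤ lev a (q.κ i) := hy
        have h1 := lev_le a (q.κ i)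
        have h2 := q.inj i (mem_Iic.2 (Pm_apply_le (τ (q.κ i)).2 (hx'.trans h1)))
          (mem_Iic.2 (Pm_apply_le (τ (q.κ i)).2 (hy'.trans h1))) hxy
        exact (τ (q.κ i)).1.injective h2 }
  have hq'κ : ∀ i, q'.κ i = lev a (q.κ i) := fun _ => rfl
  have hq'σ : ∀ i j, q'.σ i j = q.σ i ((τ (q.κ i)).1 j) := fun _ _ => rfl
  refine ⟨q', ⟨0, lev a, fun b j => (τ b).1 j, fun i _ => ⟨rfl, fun j hj => ⟨?_, rfl⟩⟩⟩, m, ?_⟩
  · have hj' : j ≤ lev a (q.κ i) := hj
    exact Pm_apply_le (τ (q.κ i)).2 (hj'.trans (lev_le a (q.κ i)))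
  rintro g ⟨z', hz', l, φ, c, hg⟩
  obtain ⟨n, rfl⟩ : z' ∈ range z := by rw [← hz]; exact hz'
  obtain ⟨I0, hI0⟩ := eventually_atTop.1 hg
  let φ' : ℕ → ℕ → ℕ := fun j b => if ∃ i, I0 ≤ i ∧ lev a (q.κ i) = b then φ j b else j
  have hφ1 : ∀ b, InjOn (fun j => φ' j b) (Iio l) := by
    intro b
    by_cases h : ∃ i, I0 ≤ i ∧ lev a (q.κ i) = b
    · obtain ⟨i, hi, hib⟩ := h
      have h1 := (hI0 i hi).1
      have h2 : (fun j => φ' j b) = fun j => φ j b := by
        funext j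
        simp only [φ', if_pos (⟨i, hi, hib⟩ : ∃ i, I0 ≤ i ∧ lev a (q.κ i) = b)]
      rw [h2, ← hib]
      exact h1
    · have h2 : (fun j => φ' j b) = fun j => j := by
        funext j
        simp only [φ', if_neg h]
      rw [h2]
      exact injOn_id _
  have hφ2 : ∀ b, l ≤ b → ∀ j < l, φ' j b ≤ b := by
    intro b hlb j hj
    by_cases h : ∃ i, I0 ≤ i ∧ lev a (q.κ i) = b
    · obtain ⟨i, hi, hib⟩ := h
      have h1 := (hI0 i hi).2.1 j hj
      have h2 : φ' j b = φ j b := by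
        simp only [φ', if_pos (⟨i, hi, hib⟩ : ∃ i, I0 ≤ i ∧ lev a (q.κ i) = b)]
      rw [h2, ← hib]
      exact h1
    · have h2 : φ' j b = j := by
        simp only [φ', if_neg h]
      omega
  have hφ3 : ∀ i, I0 ≤ i → (∀ j < l, φ' j (lev a (q.κ i)) ≤ lev a (q.κ i)) ∧
      g i = z n i + ∑ j ∈ Finset.range l,
        c j * q.σ i ((τ (q.κ i)).1 (φ' j (lev a (q.κ i)))) := by
    intro i hi
    have h1 := hI0 i hi
    have h2 : ∀ j, φ' j (lev a (q.κ i)) = φ j (lev a (q.κ i)) := by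
      intro j
      simp only [φ', if_pos (⟨i, hi, rfl⟩ :
        ∃ i', I0 ≤ i' ∧ lev a (q.κ i') = lev a (q.κ i))]
    simp only [h2]
    exact h1.2
  -- the threshold
  obtain ⟨K, hK1, hK2, hK3, hK4, hK5⟩ : ∃ K : ℕ, n ≤ K ∧ l ≤ K ∧ (∀ j < l, |c j| ≤ K) ∧
      (∀ i < I0, lev a (q.κ i) < K) ∧ (∀ i < I0, |g i| ≤ K) := by
    refine ⟨n + l + (∑ j ∈ Finset.range l, (c j).natAbs) +
      (∑ i ∈ Finset.range I0, (lev a (q.κ i) + 1)) + (∑ i ∈ Finset.range I0, (g i).natAbs),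
      by omega, by omega, ?_, ?_, ?_⟩
    · intro j hj
      have h1 : (c j).natAbs ≤ ∑ j ∈ Finset.range l, (c j).natAbs :=
        Finset.single_le_sum (f := fun j => (c j).natAbs) (fun _ _ => Nat.zero_le _)
          (Finset.mem_range.2 hj)
      rw [Int.abs_eq_natAbs]
      exact_mod_cast (by omega)
    · intro i hi
      have h1 : lev a (q.κ i) + 1 ≤ ∑ i ∈ Finset.range I0, (lev a (q.κ i) + 1) :=
        Finset.single_le_sum (f := fun i => lev a (q.κ i) + 1) (fun _ _ => Nat.zero_le _)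
          (Finset.mem_range.2 hi)
      omega
    · intro i hi
      have h1 : (g i).natAbs ≤ ∑ i ∈ Finset.range I0, (g i).natAbs :=
        Finset.single_le_sum (f := fun i => (g i).natAbs) (fun _ _ => Nat.zero_le _)
          (Finset.mem_range.2 hi)
      rw [Int.abs_eq_natAbs]
      exact_mod_cast (by omega)
  rw [eventually_atTop]
  refine ⟨K, fun k hk => ?_⟩
  have hlk : l ≤ k := hK2.trans hk
  have hck : ∀ j < l, |c j| ≤ (k : ℤ) := fun j hj => (hK3 j hj).trans (by exact_mod_cast hk)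
  have hr : ∀ j < l, φ' j k ≤ k := hφ2 k hlk
  have hπ : ∀ b, ∃ π : Equiv.Perm ℕ, π ∈ Pm b ∧ (b ≤ k → π = 1) ∧
      (k ≤ b → ∀ j < l, π (φ' j k) = φ' j b) := by
    intro b
    rcases le_or_gt b k with h | h
    · refine ⟨1, (Pm b).one_mem, fun _ => rfl, fun h' j _ => ?_⟩
      have : b = k := le_antisymm h h'
      rw [this]
      rfl
    · obtain ⟨π, h1, h2⟩ := exists_perm b l (fun j => φ' j k) (fun j => φ' j b) (hφ1 k) (hφ1 b)
        (fun j hj => (hr j hj).trans h.le) (hφ2 b (hlk.trans h.le))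
      exact ⟨π, h1, fun h' => absurd h' (not_le.2 h), fun _ => h2⟩
  choose π hπ1 hπ2 hπ3 using hπ
  let ρ : Ps := fun b => mk b (π (lev a b))
  have hρv : ∀ b, (ρ b).1 = π (lev a b) := fun b => mk_val (Pm_le (lev_le a b) (hπ1 _))
  have hmem : τ * ρ ∈ E k (a k) (m k) := by
    apply hmain k ρ
    · intro b hb
      apply Subtype.ext
      rw [hρv b]
      apply hπ2
      by_contra h
      have h3 := ha.monotone (by omega : k + 1 ≤ lev a b)
      have h4 : a (lev a b) ≤ b := lev_spec (by omega)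
      omega
    · intro l'
      refine ⟨PB.cons (π l') (hπ1 l'), fun b h1 h2 => ?_⟩
      rw [hρv b, lev_eq ha ha0 h1 h2]
      rfl
  let c' : ℕ → ℤ := fun j' => ∑ j ∈ Finset.range l, if φ' j k = j' then c j else 0
  let w : ℕ → ℤ := fun i => if q.κ i < a k then g i else 0
  have ht : ((n, c', w) : ℕ × (ℕ → ℤ) × (ℕ → ℤ)) ∈ Asm z q k (Na (a k)) := by
    refine ⟨hK1.trans hk, ⟨?_, ?_⟩, ?_, ?_⟩
    · intro i
      calc |c' i| ≤ ∑ j ∈ Finset.range l, |if φ' j k = i then c j else 0| :=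
            Finset.abs_sum_le_sum_abs _ _
        _ ≤ ∑ j ∈ Finset.range l, (k : ℤ) := by
            apply Finset.sum_le_sum
            intro j hj
            split_ifs
            · exact hck j (Finset.mem_range.1 hj)
            · simp
        _ = l * k := by rw [Finset.sum_const, Finset.card_range, nsmul_eq_mul]
        _ ≤ k * k := by
            apply mul_le_mul_of_nonneg_right _ (by positivity)
            exact_mod_cast hlk
    · intro i hi
      change ∑ j ∈ Finset.range l, (if φ' j k = i then c j else 0) = 0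
      apply Finset.sum_eq_zero
      intro j hj
      have := hr j (Finset.mem_range.1 hj)
      rw [if_neg (by omega)]
    · intro i
      have hS : 0 ≤ ∑ j ∈ Finset.range (q.κ i + 1), |q.σ i j| :=
        Finset.sum_nonneg (fun _ _ => abs_nonneg _)
      have hZ0 : 0 ≤ ∑ n ∈ Finset.range (k + 1), |z n i| :=
        Finset.sum_nonneg (fun _ _ => abs_nonneg _)
      have hkk : (0 : ℤ) ≤ k * k * ∑ j ∈ Finset.range (q.κ i + 1), |q.σ i j| := by positivity
      have hk0 : (0 : ℤ) ≤ k := by positivity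
      have hgoal : |g i| ≤ bd z q k i := by
        unfold bd
        rcases lt_or_ge i I0 with h | h
        · have h1 := hK5 i h
          have h2 : (K : ℤ) ≤ k := by exact_mod_cast hk
          linarith
        · obtain ⟨h1, h2⟩ := hφ3 i h
          rw [h2]
          have h3 : |z n i| ≤ ∑ n ∈ Finset.range (k + 1), |z n i| :=
            Finset.single_le_sum (f := fun n => |z n i|) (fun _ _ => abs_nonneg _)
              (Finset.mem_range.2 (by omega))
          have h4 : |∑ j ∈ Finset.range l, c j * q.σ i ((τ (q.κ i)).1 (φ' j (lev a (q.κ i))))| ≤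
              k * k * ∑ j ∈ Finset.range (q.κ i + 1), |q.σ i j| := by
            calc |∑ j ∈ Finset.range l, c j * q.σ i ((τ (q.κ i)).1 (φ' j (lev a (q.κ i))))|
                ≤ ∑ j ∈ Finset.range l,
                  |c j * q.σ i ((τ (q.κ i)).1 (φ' j (lev a (q.κ i))))| :=
                  Finset.abs_sum_le_sum_abs _ _
              _ ≤ ∑ j ∈ Finset.range l, (k : ℤ) * ∑ j ∈ Finset.range (q.κ i + 1), |q.σ i j| := by
                  apply Finset.sum_le_sum
                  intro j hj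
                  rw [abs_mul]
                  have h5 := h1 j (Finset.mem_range.1 hj)
                  have h6 := Pm_apply_le (τ (q.κ i)).2 (h5.trans (lev_le a (q.κ i)))
                  have h7 : |q.σ i ((τ (q.κ i)).1 (φ' j (lev a (q.κ i))))| ≤
                      ∑ j ∈ Finset.range (q.κ i + 1), |q.σ i j| :=
                    Finset.single_le_sum (f := fun j => |q.σ i j|) (fun _ _ => abs_nonneg _)
                      (Finset.mem_range.2 (by omega))
                  exact mul_le_mul (hck j (Finset.mem_range.1 hj)) h7 (abs_nonneg _) hk0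
              _ = l * (k * ∑ j ∈ Finset.range (q.κ i + 1), |q.σ i j|) := by
                  rw [Finset.sum_const, Finset.card_range, nsmul_eq_mul]
              _ ≤ k * (k * ∑ j ∈ Finset.range (q.κ i + 1), |q.σ i j|) := by
                  apply mul_le_mul_of_nonneg_right _ (by positivity)
                  exact_mod_cast hlk
              _ = k * k * ∑ j ∈ Finset.range (q.κ i + 1), |q.σ i j| := by ring
          have h5 := abs_add_le (z n i)
            (∑ j ∈ Finset.range l, c j * q.σ i ((τ (q.κ i)).1 (φ' j (lev a (q.κ i)))))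
          linarith
      simp only [w]
      split_ifs
      · exact hgoal
      · rw [abs_zero]
        exact (abs_nonneg _).trans hgoal
    · intro i hi
      have h2 : ¬ q.κ i < a k := not_lt.2 (hNa (a k) i hi)
      simp only [w, if_neg h2]
  have hfinal := hmem _ ht
  have heq : asm z q k (a k) (n, c', w) (τ * ρ) = g := by
    funext i
    by_cases h : q.κ i < a k
    · simp only [asm, if_pos h, w]
    · simp only [asm, if_neg h]
      have h1 : k ≤ lev a (q.κ i) := le_lev ha (not_lt.1 h)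
      have h2 : I0 ≤ i := by
        by_contra h3
        have := hK4 i (by omega)
        omega
      rw [(hφ3 i h2).2, sum_reindex l k (fun j => φ' j k) hr c (fun j => Xb q (τ * ρ) j i)]
      congr 1
      apply Finset.sum_congr rfl
      intro j hj
      congr 1
      change q.σ i ((τ (q.κ i)).1 ((ρ (q.κ i)).1 (φ' j k))) = _
      rw [hρv, hπ3 _ h1 j (Finset.mem_range.1 hj)]
  rw [heq] at hfinal
  exact hfinal

/-- a branch avoiding countably many sequences -/
theorem exists_new (q : Cond) (e : ℕ → ℕ → ℤ) : ∃ ψ : Ps, ∀ n, Xb q ψ 0 ≠ e n := by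
  classical
  obtain ⟨δ0, hδ0, hκ0⟩ := strictMono_subseq_of_tendsto_atTop q.tend
  let δ : ℕ → ℕ := fun n => δ0 (n + 1)
  have hκ : ∀ n, 1 ≤ q.κ (δ n) := by
    intro n
    have h1 : (q.κ ∘ δ0) n < (q.κ ∘ δ0) (n + 1) := hκ0 (Nat.lt_succ_self n)
    have h2 : q.κ (δ n) = (q.κ ∘ δ0) (n + 1) := rfl
    omega
  have hinj : ∀ n n', q.κ (δ n) = q.κ (δ n') → n = n' := by
    intro n n' h
    have := hκ0.injective (a₁ := n + 1) (a₂ := n' + 1) h
    omega
  let ψ : Ps := fun b => if ∃ n, q.κ (δ n) = b ∧ e n (δ n) = q.σ (δ n) 0 then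
    mk b (Equiv.swap 0 1) else 1
  refine ⟨ψ, fun n hn => ?_⟩
  have h1 := congrFun hn (δ n)
  have h2 : Xb q ψ 0 (δ n) = q.σ (δ n) ((ψ (q.κ (δ n))).1 0) := rfl
  rw [h2] at h1
  by_cases h : e n (δ n) = q.σ (δ n) 0
  · have h3 : ψ (q.κ (δ n)) = mk (q.κ (δ n)) (Equiv.swap 0 1) := by
      simp only [ψ]
      rw [if_pos ⟨n, rfl, h⟩]
    have h4 : (Equiv.swap 0 1 : Equiv.Perm ℕ) ∈ Pm (q.κ (δ n)) := by
      intro m hm
      have := hκ n
      exact Equiv.swap_apply_of_ne_of_ne (by omega) (by omega)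
    rw [h3, mk_val h4, Equiv.swap_apply_left, h] at h1
    have h5 := q.inj (δ n) (mem_Iic.2 (hκ n)) (mem_Iic.2 (Nat.zero_le _)) h1
    omega
  · have h3 : ψ (q.κ (δ n)) = 1 := by
      simp only [ψ]
      rw [if_neg]
      rintro ⟨n', h4, h5⟩
      rw [hinj _ _ h4] at h5
      exact h h5
    rw [h3] at h1
    exact h h1.symm

/-- the states of the construction -/
structure St where
  Z : AddSubgroup (ℕ → ℤ)
  q : Cond
  ctbl : (Z : Set (ℕ → ℤ)).Countable
  fin : ∀ g : ℕ → ℤ, (∃ N, ∀ i, N ≤ i → g i = 0) → g ∈ Z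

/-- the order of the states -/
def StLe (s' s : St) : Prop := s.Z ≤ s'.Z ∧ Le s'.q s.q ∧ Sp s'.Z s'.q ⊆ Sp s.Z s.q

theorem StLe.refl (s : St) : StLe s s := ⟨le_rfl, Le.refl _, Subset.rfl⟩

theorem StLe.trans {s1 s2 s3 : St} (h : StLe s1 s2) (h' : StLe s2 s3) : StLe s1 s3 :=
  ⟨h'.1.trans h.1, h.2.1.trans h'.2.1, h.2.2.trans h'.2.2⟩

theorem St_seq (s : ℕ → St) (hs : ∀ m n, m ≤ n → StLe (s n) (s m)) :
    ∃ p : St, ∀ n, StLe p (s n) := by
  obtain ⟨q, hq⟩ := exists_lower_seq (fun n => (s n).q) (fun m n h => (hs m n h).2.1)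
  let Z : AddSubgroup (ℕ → ℤ) :=
    { carrier := {g | ∃ n, g ∈ (s n).Z}
      add_mem' := by
        rintro g g' ⟨n, hn⟩ ⟨n', hn'⟩
        exact ⟨max n n', (s _).Z.add_mem ((hs n _ (le_max_left n n')).1 hn)
          ((hs n' _ (le_max_right n n')).1 hn')⟩
      zero_mem' := ⟨0, (s 0).Z.zero_mem⟩
      neg_mem' := by
        rintro g ⟨n, hn⟩
        exact ⟨n, (s n).Z.neg_mem hn⟩ }
  have hZ : (Z : Set (ℕ → ℤ)).Countable := by
    have h1 : (Z : Set (ℕ → ℤ)) = ⋃ n, ((s n).Z : Set (ℕ → ℤ)) := by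
      ext g
      simp only [mem_iUnion]
      exact Iff.rfl
    rw [h1]
    exact countable_iUnion (fun n => (s n).ctbl)
  refine ⟨⟨Z, q, hZ, fun g hg => ⟨0, (s 0).fin g hg⟩⟩, fun n => ⟨fun g hg => ⟨n, hg⟩, hq n, ?_⟩⟩
  rintro g ⟨z, ⟨m, hm⟩, hg⟩
  have h1 : g ∈ Sp (s (max n m)).Z q := ⟨z, (hs m _ (le_max_right n m)).1 hm, hg⟩
  exact (hs n _ (le_max_left n m)).2.2 (Sp_le _ (hq _) h1)

/-- the dense sets of tasks: Borel tasks and new elements -/
def DT : (ℕ → ℕ → {s : Set (ℕ → ℤ) // MeasurableSet s}) ⊕ (ℕ → ℕ → ℤ) → Set St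
  | Sum.inl B => {s | (∃ (n : ℕ) (F : Set (ℕ → ℤ)), F.Finite ∧ F ⊆ s.Z ∧ ∀ m, ¬ F ⊆ (B n m).1) ∨
      ∃ f : ℕ → ℕ, ∀ g ∈ Sp s.Z s.q, ∀ᶠ k in atTop, g ∈ (B k (f k)).1}
  | Sum.inr e => {s | ∃ g ∈ s.Z, ∀ n, g ≠ e n}

theorem dense_DT (t : (ℕ → ℕ → {s : Set (ℕ → ℤ) // MeasurableSet s}) ⊕ (ℕ → ℕ → ℤ)) (s : St) :
    ∃ s' ∈ DT t, StLe s' s := by
  have hadd : ∀ (ψ : Ps) (l : ℕ), ∃ s' : St, s'.Z = addFam s.Z (Xb s.q ψ) l ∧ StLe s' s := by
    intro ψ l
    exact ⟨⟨addFam s.Z (Xb s.q ψ) l, shift s.q ψ l, countable_addFam s.ctbl _ _,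
      fun g hg => le_addFam _ _ _ (s.fin g hg)⟩, rfl, le_addFam _ _ _, shift_le _ _ _,
      Sp_shift _ _ _ _⟩
  rcases t with B | e
  · rcases dichotomy s.Z s.ctbl s.fin s.q (fun n m => (B n m).1) (fun n m => (B n m).2) with
      ⟨ψ, l, n, F, h1, h2, h3⟩ | ⟨q', h1, f, h2⟩
    · obtain ⟨s', hs', hle⟩ := hadd ψ l
      refine ⟨s', Or.inl ⟨n, F, h1, ?_, h3⟩, hle⟩
      rw [hs']
      exact h2
    · exact ⟨⟨s.Z, q', s.ctbl, s.fin⟩, Or.inr ⟨f, h2⟩, le_rfl, h1, Sp_le _ h1⟩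
  · obtain ⟨ψ, hψ⟩ := exists_new s.q e
    obtain ⟨s', hs', hle⟩ := hadd ψ 1
    refine ⟨s', ⟨Xb s.q ψ 0, ?_, hψ⟩, hle⟩
    rw [hs']
    exact mem_addFam_self _ _ (Nat.lt_succ_self 0)

/-- an initial state -/
theorem exists_init : Nonempty St := by
  refine ⟨⟨(Finsupp.coeFnAddHom : (ℕ →₀ ℤ) →+ (ℕ → ℤ)).range,
    ⟨fun i => i, fun _ j => j, monotone_id, tendsto_id, fun i x _ y _ h => by simpa using h⟩,
    ?_, ?_⟩⟩
  · rw [AddMonoidHom.coe_range]
    exact countable_range _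
  · rintro g ⟨N, hN⟩
    have hfin : (Function.support g).Finite := by
      apply (finite_lt_nat N).subset
      intro i hi
      by_contra h
      exact hi (hN i (not_lt.1 h))
    exact ⟨Finsupp.ofSupportFinite g hfin, rfl⟩

section Chain

variable {S : Type} {le : S → S → Prop}

theorem chain_lower (hr : ∀ s, le s s) (ht : ∀ a b c, le a b → le b c → le a c)
    (hσ : ∀ s : ℕ → S, (∀ m n, m ≤ n → le (s n) (s m)) → ∃ p, ∀ n, le p (s n)) (s0 : S)
    {I : Type} [LinearOrder I] {i : I} (hI : (Iio i).Countable) (prev : (j : I) → j < i → S)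
    (hchain : ∀ (j k : I) (hj : j < i) (hk : k < i), j < k → le (prev k hk) (prev j hj)) :
    ∃ p : S, ∀ j h, le p (prev j h) := by
  classical
  have : Countable (Iio i) := hI.to_subtype
  rcases isEmpty_or_nonempty (Iio i) with he | hne
  · exact ⟨s0, fun j h => (he.false ⟨j, h⟩).elim⟩
  · obtain ⟨e, he⟩ := exists_surjective_nat (Iio i)
    have hch : ∀ a b : Iio i, a ≤ b → le (prev b.1 b.2) (prev a.1 a.2) := by
      intro a b hab
      rcases eq_or_lt_of_le hab with h | h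
      · subst h
        exact hr _
      · exact hchain a.1 b.1 a.2 b.2 h
    obtain ⟨p, hp2⟩ := hσ (fun n => prev (partialSups e n).1 (partialSups e n).2)
      (fun m n hmn => hch _ _ ((partialSups e).monotone hmn))
    refine ⟨p, fun j h => ?_⟩
    obtain ⟨n, hn⟩ := he ⟨j, h⟩
    refine ht _ _ _ (hp2 n) ?_
    have h1 := hch (e n) (partialSups e n) (le_partialSups e n)
    rw [hn] at h1
    exact h1

theorem chain (hr : ∀ s, le s s) (ht : ∀ a b c, le a b → le b c → le a c)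
    (hσ : ∀ s : ℕ → S, (∀ m n, m ≤ n → le (s n) (s m)) → ∃ p, ∀ n, le p (s n)) (s0 : S)
    {I : Type} [LinearOrder I] [WellFoundedLT I] (hI : ∀ i : I, (Iio i).Countable)
    (D : I → Set S) (hD : ∀ i s, ∃ s' ∈ D i, le s' s) :
    ∃ b : I → S, (∀ i, b i ∈ D i) ∧ ∀ j i, j ≤ i → le (b i) (b j) := by
  classical
  let step : (i : I) → ((j : I) → j < i → S) → S := fun i prev =>
    if h : ∃ p, p ∈ D i ∧ ∀ (j : I) (hj : j < i), le p (prev j hj) then h.choose else s0
  let b : I → S := WellFounded.fix (wellFounded_lt (α := I)) step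
  have hb : ∀ i, b i = step i (fun j _ => b j) := fun i =>
    WellFounded.fix_eq (wellFounded_lt (α := I)) step i
  have hmain : ∀ i, b i ∈ D i ∧ ∀ j, j < i → le (b i) (b j) := by
    intro i
    induction i using WellFoundedLT.induction with
    | ind i ih =>
      have hex : ∃ p, p ∈ D i ∧ ∀ (j : I) (_ : j < i), le p (b j) := by
        obtain ⟨p, hp⟩ := chain_lower hr ht hσ s0 (hI i) (fun j _ => b j)
          (fun j k _ hk hjk => (ih k hk).2 j hjk)
        obtain ⟨p', hp', hpp⟩ := hD i p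
        exact ⟨p', hp', fun j hj => ht _ _ _ hpp (hp j hj)⟩
      rw [hb i]
      simp only [step]
      rw [dif_pos hex]
      exact hex.choose_spec
  refine ⟨b, fun i => (hmain i).1, fun j i hji => ?_⟩
  rcases eq_or_lt_of_le hji with h | h
  · rw [h]
    exact hr _
  · exact (hmain i).2 j h

end Chain

/-- A family of subsets of `X` covers `X`. -/
def IsCover {X : Type*} (U : Set (Set X)) : Prop := ⋃₀ U = univ

/-- Omega-covers of `X`: covers `U` such that `X` is not a member of `U` and every finite subset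
of `X` is contained in a member of `U`. -/
def IsOmegaCover {X : Type*} (U : Set (Set X)) : Prop :=
  IsCover U ∧ univ ∉ U ∧ ∀ F : Set X, F.Finite → ∃ u ∈ U, F ⊆ u

/-- Gamma-covers of `X`: infinite covers `U` such that every point of `X` lies in all but
finitely many members of `U`. -/
def IsGammaCover {X : Type*} (U : Set (Set X)) : Prop :=
  IsCover U ∧ U.Infinite ∧ ∀ x, {u | u ∈ U ∧ x ∉ u}.Finite

/-- The countable families of Borel subsets of a topological space `X`. -/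
def BorelFam (X : Type*) [TopologicalSpace X] : Set (Set (Set X)) :=
  {U | U.Countable ∧ ∀ u ∈ U, @MeasurableSet X (borel X) u}

/-- The countable Borel omega-covers of `X`. -/
def BOmega (X : Type*) [TopologicalSpace X] : Set (Set (Set X)) :=
  {U | U ∈ BorelFam X ∧ IsOmegaCover U}

/-- The countable Borel gamma-covers of `X`. -/
def BGamma (X : Type*) [TopologicalSpace X] : Set (Set (Set X)) :=
  {U | U ∈ BorelFam X ∧ IsGammaCover U}

/-- The selection principle `S₁(A, B)`. -/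
def S1 {X : Type*} (A B : Set (Set (Set X))) : Prop :=
  ∀ U : ℕ → Set (Set X), (∀ n, U n ∈ A) →
    ∃ V : ℕ → Set X, (∀ n, V n ∈ U n) ∧ range V ∈ B

theorem range_gamma {X : Type*} [TopologicalSpace X] {U : ℕ → Set (Set X)}
    (hU : ∀ n, U n ∈ BOmega X) {V : ℕ → Set X} (hV : ∀ n, V n ∈ U n)
    (hx : ∀ x, {n | x ∉ V n}.Finite) : range V ∈ BGamma X := by
  have hpc : ∀ x, {u | u ∈ range V ∧ x ∉ u}.Finite := by
    intro x
    apply ((hx x).image V).subset
    rintro _ ⟨⟨n, rfl⟩, hn⟩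
    exact ⟨n, hn, rfl⟩
  have hinf : (range V).Infinite := by
    intro hfin
    obtain ⟨w, hw⟩ : ∃ w, (V ⁻¹' {w}).Infinite := by
      by_contra hcon
      push Not at hcon
      have : (univ : Set ℕ).Finite := by
        have h2 : (univ : Set ℕ) ⊆ ⋃ w ∈ range V, V ⁻¹' {w} := by
          intro n _
          simp only [mem_iUnion]
          exact ⟨V n, mem_range_self n, rfl⟩
        exact (hfin.biUnion (fun w _ => hcon w)).subset h2
      exact infinite_univ this
    obtain ⟨n, hn⟩ := hw.nonempty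
    have : w = univ := by
      rw [eq_univ_iff_forall]
      intro x
      obtain ⟨m, hm, hxm⟩ := hw.exists_notMem_finite (hx x)
      simp only [mem_ofPred_eq, not_not] at hxm
      rw [mem_preimage, mem_singleton_iff] at hm
      rwa [hm] at hxm
    apply (hU n).2.2.1
    rw [← this, ← (hn : V n = w)]
    exact hV n
  refine ⟨⟨countable_range V, ?_⟩, ?_, hinf, hpc⟩
  · rintro _ ⟨n, rfl⟩
    exact (hU n).1.2 _ (hV n)
  · unfold IsCover
    rw [eq_univ_iff_forall]
    intro x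
    obtain ⟨u, hu, hxu⟩ := hinf.exists_notMem_finite (hpc x)
    refine ⟨u, hu, ?_⟩
    by_contra h
    exact hxu ⟨hu, h⟩

/-- description of countable Borel families on a subspace -/
theorem exists_enum {G : AddSubgroup (ℕ → ℤ)} {U : Set (Set G)} (hU : U ∈ BorelFam G)
    (hne : U.Nonempty) : ∃ w : ℕ → Set (ℕ → ℤ), (∀ m, MeasurableSet (w m)) ∧
      U = range (fun m => (Subtype.val ⁻¹' (w m) : Set G)) := by
  obtain ⟨V, hV⟩ := hU.1.exists_eq_range hne
  have h1 : ∀ m, ∃ w : Set (ℕ → ℤ), MeasurableSet w ∧ (Subtype.val ⁻¹' w : Set G) = V m := by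
    intro m
    have h2 : @MeasurableSet G (borel G) (V m) := hU.2 _ (by rw [hV]; exact mem_range_self m)
    have h3 : borel G = MeasurableSpace.comap Subtype.val (borel (ℕ → ℤ)) := borel_comap
    rw [h3, MeasurableSpace.measurableSet_comap] at h2
    have h4 : borel (ℕ → ℤ) = (inferInstance : MeasurableSpace (ℕ → ℤ)) :=
      (BorelSpace.measurable_eq).symm
    rw [h4] at h2
    exact h2
  choose w hw1 hw2 using h1
  refine ⟨w, hw1, ?_⟩
  rw [hV]
  congr 1
  funext m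
  exact (hw2 m).symm

theorem mk_borel_le :
    Cardinal.mk {s : Set (ℕ → ℤ) // MeasurableSet s} ≤ Cardinal.continuum.{0} := by
  have h1 : (inferInstance : MeasurableSpace (ℕ → ℤ)) =
      MeasurableSpace.generateFrom (TopologicalSpace.countableBasis (ℕ → ℤ)) := by
    rw [BorelSpace.measurable_eq (α := (ℕ → ℤ))]
    exact (TopologicalSpace.isBasis_countableBasis (ℕ → ℤ)).borel_eq_generateFrom
  have h2 := MeasurableSpace.cardinal_measurableSet_le_continuum
    (s := TopologicalSpace.countableBasis (ℕ → ℤ))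
    ((Cardinal.le_aleph0_iff_set_countable.2
      (TopologicalSpace.countable_countableBasis (ℕ → ℤ))).trans
      Cardinal.aleph0_le_continuum)
  rw [← h1] at h2
  exact h2

theorem mk_fun_le {S : Type} (h : Cardinal.mk S ≤ Cardinal.continuum.{0}) :
    Cardinal.mk (ℕ → S) ≤ Cardinal.continuum.{0} := by
  rw [← Cardinal.power_def, Cardinal.mk_nat]
  calc Cardinal.mk S ^ Cardinal.aleph0
      ≤ Cardinal.continuum ^ Cardinal.aleph0 := Cardinal.power_le_power_right h
    _ = Cardinal.continuum := Cardinal.continuum_power_aleph0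

/-- the tasks -/
abbrev Tsk : Type := (ℕ → ℕ → {s : Set (ℕ → ℤ) // MeasurableSet s}) ⊕ (ℕ → ℕ → ℤ)

theorem mk_Tsk_le : Cardinal.mk Tsk ≤ Cardinal.continuum.{0} := by
  rw [Cardinal.mk_sum, Cardinal.lift_id, Cardinal.lift_id]
  have h1 : Cardinal.mk (ℕ → ℕ → {s : Set (ℕ → ℤ) // MeasurableSet s}) ≤ Cardinal.continuum :=
    mk_fun_le (mk_fun_le mk_borel_le)
  have h2 : Cardinal.mk (ℕ → ℕ → ℤ) ≤ Cardinal.continuum := by
    apply mk_fun_le
    apply mk_fun_le
    rw [Cardinal.mk_int]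
    exact Cardinal.aleph0_le_continuum
  calc _ ≤ Cardinal.continuum + Cardinal.continuum := add_le_add h1 h2
    _ = Cardinal.continuum := Cardinal.continuum_add_self

/-- Under the continuum hypothesis there is a well-order enumerating all tasks. -/
theorem exists_enumeration (hCH : Cardinal.aleph 1 = Cardinal.continuum.{0}) :
    ∃ (I : Type) (_ : LinearOrder I) (_ : WellFoundedLT I), (∀ i : I, (Iio i).Countable) ∧
      Cardinal.mk I = Cardinal.continuum.{0} ∧ ∃ t : I → Tsk, Function.Surjective t := by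
  classical
  let I : Type := (Cardinal.aleph 1).ord.ToType
  have hI : Cardinal.mk I = Cardinal.continuum := by
    rw [← hCH]
    exact Cardinal.mk_ord_toType _
  refine ⟨I, inferInstance, inferInstance, ?_, hI, ?_⟩
  · intro i
    rw [← Cardinal.le_aleph0_iff_set_countable, ← Cardinal.lt_aleph_one_iff]
    exact Cardinal.mk_Iio_toType_ord_lt i
  · have hT : Cardinal.mk Tsk ≤ Cardinal.mk I := by
      rw [hI]
      exact mk_Tsk_le
    obtain ⟨e⟩ := (Cardinal.le_def Tsk I).1 hT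
    have : Nonempty Tsk := ⟨Sum.inr (fun _ _ => 0)⟩
    exact ⟨Function.invFun e, Function.invFun_surjective e.injective⟩

/-- Under the continuum hypothesis there is a subgroup of the group of integer sequences which
has the cardinality of the continuum and satisfies `S₁(B_Ω, B_Γ)`. -/
theorem result (hc : Cardinal.continuum.{0} = Cardinal.aleph 1) :
    ∃ G : AddSubgroup (ℕ → ℤ), Cardinal.mk G = Cardinal.continuum.{0} ∧
      S1 (BOmega G) (BGamma G) := by
  classical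
  have hCH := hc.symm
  obtain ⟨I, _, _, hI, hmkI, t, ht⟩ := exists_enumeration hCH
  obtain ⟨s0⟩ := exists_init
  obtain ⟨b, hbD, hble⟩ := chain (le := StLe) StLe.refl (fun _ _ _ => StLe.trans) St_seq s0 hI
    (fun i => DT (t i)) (fun i s => dense_DT (t i) s)
  have hmono : ∀ i j, i ≤ j → (b i).Z ≤ (b j).Z := fun i j hij => (hble i j hij).1
  obtain ⟨i0, -⟩ := ht (Sum.inr (fun _ _ => 0))
  let G : AddSubgroup (ℕ → ℤ) :=
    { carrier := {g | ∃ i, g ∈ (b i).Z}
      add_mem' := by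
        rintro g g' ⟨n, hn⟩ ⟨n', hn'⟩
        exact ⟨max n n', (b _).Z.add_mem (hmono n _ (le_max_left n n') hn)
          (hmono n' _ (le_max_right n n') hn')⟩
      zero_mem' := ⟨i0, (b i0).Z.zero_mem⟩
      neg_mem' := by
        rintro g ⟨n, hn⟩
        exact ⟨n, (b n).Z.neg_mem hn⟩ }
  have hG : ∀ g, g ∈ G ↔ ∃ i, g ∈ (b i).Z := fun _ => Iff.rfl
  refine ⟨G, ?_, ?_⟩
  · apply le_antisymm
    · calc Cardinal.mk G ≤ Cardinal.mk (ℕ → ℤ) := Cardinal.mk_subtype_le _
        _ ≤ Cardinal.continuum := mk_fun_le (by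
          rw [Cardinal.mk_int]
          exact Cardinal.aleph0_le_continuum)
    · rw [← hCH, ← Cardinal.succ_aleph0, Order.succ_le_iff]
      by_contra hcon
      have hc : (G : Set (ℕ → ℤ)).Countable :=
        Cardinal.le_aleph0_iff_set_countable.1 (not_lt.1 hcon)
      obtain ⟨e, he⟩ := hc.exists_eq_range ⟨0, G.zero_mem⟩
      obtain ⟨i, hi⟩ := ht (Sum.inr e)
      have h1 := hbD i
      simp only [hi] at h1
      obtain ⟨g, hg, hge⟩ := h1
      have h2 : g ∈ (G : Set (ℕ → ℤ)) := ⟨i, hg⟩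
      rw [he] at h2
      obtain ⟨n, hn⟩ := h2
      exact hge n hn.symm
  · intro U hU
    have hne : ∀ n, (U n).Nonempty := fun n => by
      obtain ⟨u, hu, -⟩ := (hU n).2.2.2 ∅ finite_empty
      exact ⟨u, hu⟩
    choose w hw hUw using fun n => exists_enum (hU n).1 (hne n)
    obtain ⟨i, hi⟩ := ht (Sum.inl (fun n m => ⟨w n m, hw n m⟩))
    have h1 := hbD i
    simp only [hi] at h1
    rcases h1 with ⟨n, F, hF, hFZ, hFm⟩ | ⟨f, hf⟩
    · exfalso
      obtain ⟨v, hv, hFv⟩ := (hU n).2.2.2 (Subtype.val ⁻¹' F)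
        (hF.preimage Subtype.val_injective.injOn)
      rw [hUw n] at hv
      obtain ⟨m, rfl⟩ := hv
      apply hFm m
      intro z hz
      have : (⟨z, ⟨i, hFZ hz⟩⟩ : G) ∈ (Subtype.val ⁻¹' (w n m) : Set G) := hFv hz
      exact this
    · refine ⟨fun n => Subtype.val ⁻¹' (w n (f n)), ?_, ?_⟩
      · intro n
        rw [hUw n]
        exact mem_range_self _
      · refine range_gamma hU ?_ ?_
        · intro n
          rw [hUw n]
          exact mem_range_self _
        · rintro ⟨x, j, hj⟩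
          have h2 : x ∈ Sp (b i).Z (b i).q :=
            (hble i (max i j) (le_max_left i j)).2.2
              (subset_Sp _ _ (hmono j _ (le_max_right i j) hj))
          obtain ⟨N, hN⟩ := eventually_atTop.1 (hf x h2)
          apply (finite_lt_nat N).subset
          intro n hn
          by_contra hcon
          exact hn (hN n (not_lt.1 hcon))

end Pool.Agent.Results.MP_cc0654_lc.SubgroupUnderCH
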